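import Mathlib

namespace Pool.Agent.H159.BC

open Finset

variable {V : Type*}

/-- A complete graph with edges coloured red (`R`) and blue (`B`) which contains neither the
pentagon pattern nor the bull pattern. -/
structure Cfg (R B : V → V → Prop) : Prop where
  rs : ∀ {a b}, R a b → R b a
  bs : ∀ {a b}, B a b → B b a
  ex : ∀ {a b}, R a b → B a b → False
  tot : ∀ {a b}, a ≠ b → R a b ∨ B a b
  ri : ∀ {a}, R a a → False
  bi : ∀ {a}, B a a → False
  c5 : ∀ {a b c d e}, R a b → R b c → R c d → R d e → R e a →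
    B a c → B b d → B c e → B d a → B e b → False
  bull : ∀ {a x y b z}, R a x → R x y → R y b → R x z → R y z →
    B a y → B a b → B a z → B x b → B z b → False

theorem Cfg.swap {R B : V → V → Prop} (h : Cfg R B) : Cfg B R where
  rs := h.bs
  bs := h.rs
  ex := fun a b => h.ex b a
  tot := fun hab => (h.tot hab).symm
  ri := h.bi
  bi := h.ri
  c5 := by
    intro a b c d e h1 h2 h3 h4 h5 h6 h7 h8 h9 h10
    -- red cycle a c e b d
    exact h.c5 (a := a) (b := c) (c := e) (d := b) (e := d) h6 h8 h10 h7 h9 (h.bs h5) (h.bs h2)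
      (h.bs h4) (h.bs h1) (h.bs h3)
  bull := by
    intro a x y b z h1 h2 h3 h4 h5 h6 h7 h8 h9 h10
    exact h.bull (a := y) (x := a) (y := b) (b := x) (z := z) (h.rs h6) h7 (h.rs h9) h8
      (h.rs h10) h3 (h.bs h2) h5 h1 (h.bs h4)

/-- connectivity in the form of a crossing edge -/
def Conn (T : V → V → Prop) (S : Finset V) : Prop :=
  ∀ Q : V → Prop, (∃ x ∈ S, Q x) → (∃ y ∈ S, ¬ Q y) → ∃ a ∈ S, ∃ b ∈ S, T a b ∧ Q a ∧ ¬ Q b

open Classical in
/-- the component of `s` in `P` -/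
noncomputable def cc (T : V → V → Prop) (P : Finset V) (s : V) : Finset V :=
  P.filter (fun x => Relation.ReflTransGen (fun a b => a ∈ P ∧ b ∈ P ∧ T a b) s x)

open Classical in
/-- the neighbours of `u` in `P` -/
noncomputable def nb (T : V → V → Prop) (P : Finset V) (u : V) : Finset V :=
  P.filter (fun p => T u p)

theorem mem_nb {T : V → V → Prop} {P : Finset V} {u p : V} : p ∈ nb T P u ↔ p ∈ P ∧ T u p := by
  unfold nb; simp

theorem cc_self {T : V → V → Prop} {P : Finset V} {s : V} (hs : s ∈ P) : s ∈ cc T P s := by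
  unfold cc; simp [hs, Relation.ReflTransGen.refl]

theorem cc_sub {T : V → V → Prop} {P : Finset V} {s : V} : cc T P s ⊆ P := by
  intro x hx
  unfold cc at hx
  simp only [Finset.mem_filter] at hx
  exact hx.1

theorem cc_closed {T : V → V → Prop} {P : Finset V} {s x y : V} (hx : x ∈ cc T P s)
    (hy : y ∈ P) (h : T x y) : y ∈ cc T P s := by
  unfold cc at *
  simp only [Finset.mem_filter] at *
  exact ⟨hy, hx.2.tail ⟨hx.1, hy, h⟩⟩

/-- induction along a component -/
theorem cc_ind {T : V → V → Prop} {P : Finset V} {s : V} (hs : s ∈ P) (Q : V → Prop) (h0 : Q s)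
    (hstep : ∀ x ∈ cc T P s, ∀ y ∈ P, T x y → Q x → Q y) : ∀ x ∈ cc T P s, Q x := by
  intro x hx
  have hx' : Relation.ReflTransGen (fun a b => a ∈ P ∧ b ∈ P ∧ T a b) s x := by
    unfold cc at hx; simp only [Finset.mem_filter] at hx; exact hx.2
  have key : ∀ y, Relation.ReflTransGen (fun a b => a ∈ P ∧ b ∈ P ∧ T a b) s y →
      y ∈ cc T P s ∧ Q y := by
    intro y hy
    induction hy with
    | refl => exact ⟨cc_self hs, h0⟩
    | tail _ hbc ih => exact ⟨cc_closed ih.1 hbc.2.1 hbc.2.2, hstep _ ih.1 _ hbc.2.1 hbc.2.2 ih.2⟩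
  exact (key x hx').2

theorem cc_conn {T : V → V → Prop} (ts : ∀ {a b}, T a b → T b a) {P : Finset V} {s : V}
    (hs : s ∈ P) : Conn T (cc T P s) := by
  classical
  intro Q ⟨x, hx, hQx⟩ ⟨y, hy, hQy⟩
  by_contra hno
  push Not at hno
  by_cases hQs : Q s
  · refine hQy (cc_ind hs Q hQs ?_ y hy)
    intro a ha b hb hab hQa
    exact hno a ha b (cc_closed ha hb hab) hab hQa
  · refine (cc_ind hs (fun v => ¬ Q v) hQs ?_ x hx) hQx
    intro a ha b hb hab hQa hQb
    exact hQa (hno b (cc_closed ha hb hab) a ha (ts hab) hQb)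

theorem cc_ne_of_not_conn {T : V → V → Prop} (ts : ∀ {a b}, T a b → T b a) {P : Finset V}
    (hP : ¬ Conn T P) {s : V} (hs : s ∈ P) : cc T P s ≠ P := by
  intro h
  apply hP
  have := cc_conn (T := T) ts hs
  rwa [h] at this

theorem exists_not_mem_of_ne {K P : Finset V} (hs : K ⊆ P) (hne : K ≠ P) : ∃ x ∈ P, x ∉ K := by
  by_contra h
  push Not at h
  exact hne (Finset.Subset.antisymm hs h)

theorem card_lt_of_ne {K P : Finset V} (hs : K ⊆ P) (hne : K ≠ P) : K.card < P.card :=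
  Finset.card_lt_card (lt_of_le_of_ne hs hne)

/-- an induced `2K2` in a bipartite graph -/
theorem two_k2 {R B : V → V → Prop} (h : Cfg R B) {A C : Finset V} (hC : C.Nonempty)
    (h1 : ∀ a ∈ A, ∃ c ∈ C, R a c) (h2 : ∀ c ∈ C, ∃ a ∈ A, B a c) :
    ∃ a ∈ A, ∃ a' ∈ A, ∃ c ∈ C, ∃ c' ∈ C, R a c ∧ R a' c' ∧ ¬ R a c' ∧ ¬ R a' c := by
  classical
  obtain ⟨c, hc, hmax⟩ := Finset.exists_max_image C (fun c => (nb R A c).card) hC
  obtain ⟨a, ha, hac⟩ := h2 c hc
  obtain ⟨c', hc', hac'⟩ := h1 a ha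
  have hnot : ¬ nb R A c ⊆ nb R A c' := by
    intro hsub
    have hlt : (nb R A c).card < (nb R A c').card := by
      apply Finset.card_lt_card
      refine ⟨hsub, ?_⟩
      intro hsub'
      have := hsub' (mem_nb.2 ⟨ha, h.rs hac'⟩)
      exact h.ex (h.rs (mem_nb.1 this).2) hac
    exact absurd (hmax c' hc') (by simpa using hlt)
  obtain ⟨a', ha'⟩ := Finset.not_subset.1 hnot
  have ha1 := mem_nb.1 ha'.1
  refine ⟨a', ha1.1, a, ha, c, hc, c', hc', h.rs ha1.2, hac', ?_, ?_⟩
  · intro hr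
    exact ha'.2 (mem_nb.2 ⟨ha1.1, h.rs hr⟩)
  · intro hr
    exact h.ex hr hac

/-- half structure: a vertex `z` red to `U` and blue to `P`, and all cross pairs are witnessed -/
structure HT (R B : V → V → Prop) (U P : Finset V) (z : V) : Prop where
  zU : ∀ {u}, u ∈ U → R z u
  zP : ∀ {p}, p ∈ P → B z p
  w2 : ∀ {u p}, u ∈ U → p ∈ P → R u p → ∃ x, (x ∈ U ∨ x ∈ P) ∧ B x u ∧ B x p
  w3 : ∀ {u p}, u ∈ U → p ∈ P → B u p → ∃ x, (x ∈ U ∨ x ∈ P) ∧ R x u ∧ R x p

theorem HT.ne {R B : V → V → Prop} (h : Cfg R B) {U P : Finset V} {z : V} (t : HT R B U P z)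
    {u p : V} (hu : u ∈ U) (hp : p ∈ P) : u ≠ p := by
  rintro rfl
  exact h.ex (t.zU hu) (t.zP hp)

theorem HT.rb {R B : V → V → Prop} (h : Cfg R B) {U P : Finset V} {z : V} (t : HT R B U P z)
    {u p : V} (hu : u ∈ U) (hp : p ∈ P) (hn : ¬ R u p) : B u p :=
  (h.tot (t.ne h hu hp)).resolve_left hn

/-- (F1, red version) -/
theorem f1 {R B : V → V → Prop} (h : Cfg R B) {z u u' a a' : V} (zu : R z u) (zu' : R z u')
    (za : B z a) (za' : B z a') (ua : R u a) (u'a' : R u' a') (ua' : B u a') (u'a : B u' a)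
    (uu' : R u u') : R a a' := by
  by_contra hn
  have hne : a ≠ a' := by rintro rfl; exact h.ex ua ua'
  have hb := (h.tot hne).resolve_left hn
  -- triangle u u' z ; pendants a at u, a' at u'
  exact h.bull (a := a) (x := u) (y := u') (b := a') (z := z) (h.rs ua) uu' u'a' (h.rs zu)
    (h.rs zu') (h.bs u'a) hb (h.bs za) ua' za'

/-- (F1, blue version) -/
theorem f1b {R B : V → V → Prop} (h : Cfg R B) {z u u' a a' : V} (zu : R z u) (zu' : R z u')
    (za : B z a) (za' : B z a') (ua : R u a) (u'a' : R u' a') (ua' : B u a') (u'a : B u' a)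
    (aa' : R a a') : R u u' := by
  by_contra hn
  have hne : u ≠ u' := by rintro rfl; exact h.ex ua u'a
  have hb := (h.tot hne).resolve_left hn
  exact h.c5 (a := z) (b := u) (c := a) (d := a') (e := u') zu ua aa' (h.rs u'a') (h.rs zu')
    za ua' (h.bs u'a) (h.bs za') (h.bs hb)

/-- property (i): `a, a'` red neighbours of `u`, `b` blue to `u`; `z` red to `u`, blue to others -/
theorem pi1 {R B : V → V → Prop} (h : Cfg R B) {z u a a' b : V} (zu : R z u) (za : B z a)
    (za' : B z a') (zb : B z b) (ua : R u a) (ua' : R u a') (ub : B u b) (aa' : R a a')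
    (ba : R b a) : R b a' := by
  by_contra hn
  have hne : b ≠ a' := by rintro rfl; exact h.ex ua' ub
  have hb := (h.tot hne).resolve_left hn
  exact h.bull (a := b) (x := a) (y := u) (b := z) (z := a') ba (h.rs ua) (h.rs zu) aa' ua'
    (h.bs ub) (h.bs zb) hb (h.bs za) (h.bs za')

/-- (F2): `u u'` red, `v` blue to both, `z` red to all three, `p` red to `u`, blue to `u'`, `z` -/
theorem f2 {R B : V → V → Prop} (h : Cfg R B) {z u u' v p : V} (zu : R z u) (zu' : R z u')
    (zv : R z v) (zp : B z p) (uu' : R u u') (vu : B v u) (vu' : B v u') (up : R u p)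
    (u'p : B u' p) : R v p := by
  by_contra hn
  have hne : v ≠ p := by rintro rfl; exact h.ex up (h.bs vu)
  have hb := (h.tot hne).resolve_left hn
  exact h.bull (a := v) (x := z) (y := u) (b := p) (z := u') (h.rs zv) zu up zu' uu' vu hb vu'
    zp u'p

end Pool.Agent.H159.BC
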