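import Pool.Agent.H159.BC.Types

namespace Pool.Agent.H159.BC

open Finset

variable {V : Type*} {R B : V → V → Prop}

/-- weak tight pair -/
structure WT (R B : V → V → Prop) (U P : Finset V) (z q : V) : Prop where
  t : HT R B U P z
  qP : ∀ {p}, p ∈ P → R q p
  qU : ∀ {u}, u ∈ U → B q u
  nU : U.Nonempty
  nP : P.Nonempty

theorem WT.swap {U P : Finset V} {z q : V} (w : WT R B U P z q) : WT B R U P q z where
  t := ⟨w.qU, w.qP, fun hu hp hb => w.t.w3 hu hp hb, fun hu hp hb => w.t.w2 hu hp hb⟩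
  qP := w.t.zP
  qU := w.t.zU
  nU := w.nU
  nP := w.nP

theorem WT.flip (h : Cfg R B) {U P : Finset V} {z q : V} (w : WT R B U P z q) :
    WT R B P U q z where
  t := ⟨w.qP, w.qU, fun hp hu hr => by
      obtain ⟨x, hx, h1, h2⟩ := w.t.w2 hu hp (h.rs hr)
      exact ⟨x, hx.symm, h2, h1⟩, fun hp hu hr => by
      obtain ⟨x, hx, h1, h2⟩ := w.t.w3 hu hp (h.bs hr)
      exact ⟨x, hx.symm, h2, h1⟩⟩
  qP := w.t.zU
  qU := w.t.zP
  nU := w.nP
  nP := w.nU

/-- the chain property -/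
theorem chain (h : Cfg R B) {U P : Finset V} {z q : V} (wt : WT R B U P z q) {u a a' b b' : V}
    (hu : u ∈ U) (ha : a ∈ P) (ha' : a' ∈ P) (hb : b ∈ P) (hb' : b' ∈ P)
    (ua : R u a) (ua' : R u a') (ub : B u b) (ub' : B u b') (hab : R a b) (hab' : R a' b')
    (n1 : ¬ R a b') (n2 : ¬ R a' b) : False := by
  have e1 : B a b' := by
    refine (h.tot ?_).resolve_left n1
    rintro rfl; exact h.ex ua ub'
  have e2 : B a' b := by
    refine (h.tot ?_).resolve_left n2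
    rintro rfl; exact h.ex ua' ub
  have t := wt.t
  have e3 : B a a' := by
    refine (h.tot ?_).resolve_left ?_
    · rintro rfl; exact n2 hab
    · intro hr
      have := pi1 h (t.zU hu) (t.zP ha) (t.zP ha') (t.zP hb) ua ua' ub hr (h.rs hab)
      exact n2 (h.rs this)
  have e4 : R b b' := by
    refine (h.tot ?_).resolve_right ?_
    · rintro rfl; exact n1 hab
    · intro hr
      have s := wt.swap.t
      have := pi1 h.swap (s.zU hu) (s.zP hb') (s.zP hb) (s.zP ha) ub' ub ua (h.bs hr) e1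
      exact h.ex hab this
  exact h.c5 (a := u) (b := a) (c := b) (d := b') (e := a') ua hab e4 (h.rs hab') (h.rs ua')
    ub e1 (h.bs e2) (h.bs ub') (h.bs e3)

theorem stepA (h : Cfg R B) {U P : Finset V} {z q : V} (wt : WT R B U P z q) {u a b0 : V}
    (hu : u ∈ U) (ha : a ∈ P) (ua : R u a) (hall : ∀ b ∈ P, B u b → B a b) (hb0 : b0 ∈ P)
    (ub0 : B u b0) : ¬ Conn R P := by
  intro hc
  have t := wt.t
  obtain ⟨x, hx, y, hy, hxy, ⟨hux, hx2⟩, hQy⟩ :=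
    hc (fun x => R u x ∧ ∀ b ∈ P, B u b → B x b) ⟨a, ha, ua, hall⟩
      ⟨b0, hb0, fun hh => h.ex hh.1 ub0⟩
  apply hQy
  have huy : R u y := by
    refine (h.tot (t.ne h hu hy)).resolve_right fun hb => ?_
    exact h.ex hxy (hx2 y hy hb)
  refine ⟨huy, ?_⟩
  intro b hb hub
  have hne : y ≠ b := by rintro rfl; exact h.ex huy hub
  refine (h.tot hne).resolve_left fun hr => ?_
  have := pi1 h (t.zU hu) (t.zP hy) (t.zP hx) (t.zP hb) huy hux hub (h.rs hxy) (h.rs hr)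
  exact h.ex this (h.bs (hx2 b hb hub))

theorem mixed_imp (h : Cfg R B) {U P : Finset V} {z q : V} (wt : WT R B U P z q) {u a0 b0 : V}
    (hu : u ∈ U) (ha0 : a0 ∈ P) (ua0 : R u a0) (hb0 : b0 ∈ P)
    (ub0 : B u b0) : ¬ Conn R P ∨ ¬ Conn B P := by
  by_cases hA : ∃ a ∈ P, R u a ∧ ∀ b ∈ P, B u b → B a b
  · obtain ⟨a, ha, ua, hall⟩ := hA
    exact Or.inl (stepA h wt hu ha ua hall hb0 ub0)
  by_cases hB : ∃ b ∈ P, B u b ∧ ∀ a ∈ P, R u a → R b a
  · obtain ⟨b, hb, ub, hall⟩ := hB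
    exact Or.inr (stepA h.swap wt.swap hu hb ub hall ha0 ua0)
  exfalso
  push Not at hA hB
  have t := wt.t
  obtain ⟨a, ha, a', ha', c, hc, c', hc', h1, h2, h3, h4⟩ :=
    two_k2 h (A := nb R P u) (C := nb B P u) ⟨b0, mem_nb.2 ⟨hb0, ub0⟩⟩
      (by
        intro a ha
        have ha := mem_nb.1 ha
        obtain ⟨b, hb, hub, hn⟩ := hA a ha.1 ha.2
        refine ⟨b, mem_nb.2 ⟨hb, hub⟩, ?_⟩
        refine (h.tot ?_).resolve_right hn
        rintro rfl; exact h.ex ha.2 hub)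
      (by
        intro b hb
        have hb := mem_nb.1 hb
        obtain ⟨a, ha, hua, hn⟩ := hB b hb.1 hb.2
        refine ⟨a, mem_nb.2 ⟨ha, hua⟩, ?_⟩
        refine (h.tot ?_).resolve_left (fun hr => hn (h.rs hr))
        rintro rfl; exact h.ex hua hb.2)
  have ha := mem_nb.1 ha
  have ha' := mem_nb.1 ha'
  have hc := mem_nb.1 hc
  have hc' := mem_nb.1 hc'
  exact chain h wt hu ha.1 ha'.1 hc.1 hc'.1 ha.2 ha'.2 hc.2 hc'.2 h1 h2 h3 h4

theorem exists_mixed (h : Cfg R B) {U P : Finset V} {z q : V} (wt : WT R B U P z q) :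
    ∃ u ∈ U, (∃ a ∈ P, R u a) ∧ (∃ b ∈ P, B u b) := by
  by_contra hcon
  push Not at hcon
  obtain ⟨p, hp⟩ := wt.nP
  have t := wt.t
  have h1 : ∀ a ∈ nb B U p, ∃ c ∈ nb R U p, R a c := by
    intro a ha
    have ha := mem_nb.1 ha
    have hred : ∀ x ∈ P, ¬ R a x := fun x hx hr => hcon a ha.1 ⟨x, hx, hr⟩ p hp (h.bs ha.2)
    obtain ⟨x, hx, hxa, hxp⟩ := t.w3 ha.1 hp (h.bs ha.2)
    rcases hx with hx | hx
    · exact ⟨x, mem_nb.2 ⟨hx, h.rs hxp⟩, h.rs hxa⟩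
    · exact absurd (h.rs hxa) (hred x hx)
  have h2 : ∀ c ∈ nb R U p, ∃ a ∈ nb B U p, B a c := by
    intro c hc
    have hc := mem_nb.1 hc
    obtain ⟨x, hx, hxa, hxp⟩ := t.w2 hc.1 hp (h.rs hc.2)
    rcases hx with hx | hx
    · exact ⟨x, mem_nb.2 ⟨hx, h.bs hxp⟩, hxa⟩
    · exact absurd (h.bs hxa) (hcon c hc.1 ⟨p, hp, h.rs hc.2⟩ x hx)
  have hC : (nb R U p).Nonempty := by
    obtain ⟨u, hu⟩ := wt.nU
    rcases h.tot (t.ne h hu hp) with hr | hb
    · exact ⟨u, mem_nb.2 ⟨hu, h.rs hr⟩⟩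
    · obtain ⟨c, hc, _⟩ := h1 u (mem_nb.2 ⟨hu, h.bs hb⟩)
      exact ⟨c, hc⟩
  obtain ⟨a, ha, a', ha', c, hc, c', hc', e1, e2, e3, e4⟩ := two_k2 h hC h1 h2
  have ha := mem_nb.1 ha
  have ha' := mem_nb.1 ha'
  have hc := mem_nb.1 hc
  have hc' := mem_nb.1 hc'
  exact chain h (wt.flip h) hp hc.1 hc'.1 ha.1 ha'.1 hc.2 hc'.2 ha.2 ha'.2 (h.rs e1) (h.rs e2)
    (fun hr => e4 (h.rs hr)) (fun hr => e3 (h.rs hr))

theorem step2 (h : Cfg R B) {U P : Finset V} {z q : V} (wt : WT R B U P z q)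
    (hnc : ¬ Conn B P)
    (IH : ∀ U' P', WT R B U' P' z q → U'.card + P'.card < U.card + P.card → False) :
    False := by
  classical
  have t := wt.t
  obtain ⟨w, hw, hmax⟩ := Finset.exists_max_image U (fun u => (nb R P u).card) wt.nU
  by_cases hII : ∃ s ∈ P, nb R P w ⊆ cc B P s
  · obtain ⟨s, hs, hsub⟩ := hII
    have hne := cc_ne_of_not_conn (T := B) h.bs hnc hs
    refine IH (ua R B U P s) (cc B P s) ⟨typeII h t hmax hs hsub, fun hp => wt.qP (cc_sub hp),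
      fun hu => wt.qU (mem_ua.1 hu).1, ⟨w, mem_ua.2 ⟨hw, hsub⟩⟩, ⟨s, cc_self hs⟩⟩ ?_
    have h1 := card_lt_of_ne cc_sub hne
    have h2 : (ua R B U P s).card ≤ U.card :=
      Finset.card_le_card (fun x hx => (mem_ua.1 hx).1)
    omega
  push Not at hII
  have hno : ∀ s ∈ P, ¬ nb R P w ⊆ cc B P s := hII
  have c3 : ∀ x ∈ U, x ∉ cc B U w → ∀ p ∈ P, R w p → ¬ R x p := by
    intro x hx hxn p hp hwp hxp
    obtain ⟨v, hv, hvw, hvp⟩ := c2 h t hw hno hp hwp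
    have hvU : v ∈ cc B U w := cc_closed (cc_self hw) hv (h.bs hvw)
    have hvx : R v x := red_of_not_mem h hvU hx hxn
    have hwx : R w x := red_of_not_mem h (cc_self hw) hx hxn
    exact h.bull (a := v) (x := x) (y := p) (b := q) (z := w) hvx hxp (h.rs (wt.qP hp))
      (h.rs hwx) (h.rs hwp) hvp (h.bs (wt.qU hv)) hvw (h.bs (wt.qU hx)) (h.bs (wt.qU hw))
  have hT := typeI h t hw hmax hno c3
  have hnbne : (nb R P w).Nonempty := by
    by_contra hemp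
    rw [Finset.not_nonempty_iff_eq_empty] at hemp
    obtain ⟨s, hs⟩ := wt.nP
    exact hno s hs (by rw [hemp]; exact Finset.empty_subset _)
  have hW : WT R B (cc B U w) (nb R P w) z q := ⟨hT, fun hp => wt.qP (mem_nb.1 hp).1,
    fun hu => wt.qU (cc_sub hu), ⟨w, cc_self hw⟩, hnbne⟩
  have hnbsub : nb R P w ⊆ P := fun x hx => (mem_nb.1 hx).1
  by_cases hEU : cc B U w = U
  swap
  · refine IH _ _ hW ?_
    have h1 := card_lt_of_ne cc_sub hEU
    have h2 := Finset.card_le_card hnbsub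
    omega
  by_cases hEP : nb R P w = P
  swap
  · refine IH _ _ hW ?_
    have h1 := card_lt_of_ne hnbsub hEP
    have h2 : (cc B U w).card ≤ U.card := Finset.card_le_card cc_sub
    omega
  -- type I-c
  have hConnU : Conn B U := by
    have := cc_conn (T := B) h.bs hw
    rwa [hEU] at this
  have hall : ∀ p ∈ P, R w p := by
    intro p hp
    rw [← hEP] at hp
    exact (mem_nb.1 hp).2
  have hV : ∀ p ∈ P, ∃ v ∈ U, B v p := by
    intro p hp
    obtain ⟨v, hv, _, hvp⟩ := c2 h t hw hno hp (hall p hp)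
    exact ⟨v, hv, hvp⟩
  obtain ⟨p0, hp0⟩ := wt.nP
  obtain ⟨v0, hv0, hv0p⟩ := hV p0 hp0
  have hnR : ¬ Conn R U := by
    rcases mixed_imp h (wt.flip h) hp0 hw (h.rs (hall p0 hp0)) hv0 (h.bs hv0p) with hh | hh
    · exact hh
    · exact absurd hConnU hh
  set D := cc R U w with hD
  have hDne : D ≠ U := cc_ne_of_not_conn (T := R) h.rs hnR hw
  have hDsub : D ⊆ U := cc_sub
  have hblue : ∀ x ∈ D, ∀ y ∈ U, y ∉ D → B x y := by
    intro x hx y hy hyn
    have hne : x ≠ y := by rintro rfl; exact hyn hx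
    exact (h.tot hne).resolve_left fun hr => hyn (cc_closed hx hy hr)
  have hd : ∀ p ∈ P, (∃ v ∈ D, B v p) → (∃ v' ∈ U, v' ∉ D ∧ B v' p) → False := by
    rintro p hp ⟨v, hv, hvp⟩ ⟨v', hv', hv'n, hv'p⟩
    obtain ⟨a, ha, b, hb, hab, hap, hbp⟩ := cc_conn (T := R) h.rs hw (fun x => R x p)
      ⟨w, cc_self hw, hall p hp⟩ ⟨v, hv, fun hr => h.ex hr hvp⟩
    have haU := hDsub ha
    have hbU := hDsub hb
    have hbp' : B b p := t.rb h hbU hp hbp
    exact h.bull (a := p) (x := a) (y := z) (b := v') (z := b) (h.rs hap) (h.rs (t.zU haU))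
      (t.zU hv') hab (t.zU hbU) (h.bs (t.zP hp)) (h.bs hv'p) (h.bs hbp') (hblue a ha v' hv' hv'n)
      (hblue b hb v' hv' hv'n)
  have he : ∀ p ∈ P, ∀ p' ∈ P, (∃ v ∈ D, B v p) → (∃ v' ∈ U, v' ∉ D ∧ B v' p') → R p p' →
      False := by
    rintro p hp p' hp' ⟨v, hv, hvp⟩ ⟨v', hv', hv'n, hv'p'⟩ hpp'
    have r1 : R v' p := by
      refine (h.tot (t.ne h hv' hp)).resolve_right fun hb => ?_
      exact hd p hp ⟨v, hv, hvp⟩ ⟨v', hv', hv'n, hb⟩
    have r2 : R v p' := by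
      refine (h.tot (t.ne h (hDsub hv) hp')).resolve_right fun hb => ?_
      exact hd p' hp' ⟨v, hv, hb⟩ ⟨v', hv', hv'n, hv'p'⟩
    have := f1 h (wt.qP hp) (wt.qP hp') (wt.qU hv') (wt.qU (hDsub hv)) (h.rs r1) (h.rs r2)
      (h.bs hvp) (h.bs hv'p') hpp'
    exact h.ex this (h.bs (hblue v hv v' hv' hv'n))
  by_cases hA : ∀ p ∈ P, ∀ u ∈ U, u ∉ D → R u p
  · refine IH D P ⟨⟨fun hu => t.zU (hDsub hu), t.zP, ?_, ?_⟩, wt.qP,
      fun hu => wt.qU (hDsub hu), ⟨w, cc_self hw⟩, wt.nP⟩ ?_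
    · intro u p hu hp hup
      obtain ⟨x, hx, hxu, hxp⟩ := t.w2 (hDsub hu) hp hup
      rcases hx with hx | hx
      · by_cases hxD : x ∈ D
        · exact ⟨x, Or.inl hxD, hxu, hxp⟩
        · exact absurd hxp (fun hb => h.ex (hA p hp x hx hxD) hb)
      · exact ⟨x, Or.inr hx, hxu, hxp⟩
    · intro u p hu hp hup
      obtain ⟨x, hx, hxu, hxp⟩ := t.w3 (hDsub hu) hp hup
      rcases hx with hx | hx
      · exact ⟨x, Or.inl (cc_closed hu hx (h.rs hxu)), hxu, hxp⟩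
      · exact ⟨x, Or.inr hx, hxu, hxp⟩
    · have h1 := card_lt_of_ne hDsub hDne
      omega
  by_cases hBB : ∀ p ∈ P, ∀ u ∈ D, R u p
  · obtain ⟨y, hyU, hyD⟩ := exists_not_mem_of_ne hDsub hDne
    have hmem : ∀ x, x ∈ U.filter (fun x => x ∉ D) ↔ x ∈ U ∧ x ∉ D := by
      intro x; simp
    refine IH (U.filter (fun x => x ∉ D)) P ⟨⟨fun hu => t.zU ((hmem _).1 hu).1, t.zP, ?_, ?_⟩,
      wt.qP, fun hu => wt.qU ((hmem _).1 hu).1, ⟨y, (hmem _).2 ⟨hyU, hyD⟩⟩, wt.nP⟩ ?_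
    · intro u p hu hp hup
      obtain ⟨x, hx, hxu, hxp⟩ := t.w2 ((hmem _).1 hu).1 hp hup
      rcases hx with hx | hx
      · by_cases hxD : x ∈ D
        · exact absurd hxp (fun hb => h.ex (hBB p hp x hxD) hb)
        · exact ⟨x, Or.inl ((hmem _).2 ⟨hx, hxD⟩), hxu, hxp⟩
      · exact ⟨x, Or.inr hx, hxu, hxp⟩
    · intro u p hu hp hup
      obtain ⟨x, hx, hxu, hxp⟩ := t.w3 ((hmem _).1 hu).1 hp hup
      rcases hx with hx | hx
      · by_cases hxD : x ∈ D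
        · exact absurd (cc_closed hxD ((hmem _).1 hu).1 hxu) ((hmem _).1 hu).2
        · exact ⟨x, Or.inl ((hmem _).2 ⟨hx, hxD⟩), hxu, hxp⟩
      · exact ⟨x, Or.inr hx, hxu, hxp⟩
    · have : (U.filter (fun x => x ∉ D)).card < U.card := by
        apply Finset.card_lt_card
        refine ⟨Finset.filter_subset _ _, ?_⟩
        intro hsub
        exact ((hmem _).1 (hsub hw)).2 (cc_self hw)
      omega
  push Not at hA hBB
  obtain ⟨p', hp', v', hv', hv'n, hnr'⟩ := hA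
  obtain ⟨p, hp, v, hv, hnr⟩ := hBB
  have hvp : B v p := t.rb h (hDsub hv) hp hnr
  have hv'p' : B v' p' := t.rb h hv' hp' hnr'
  have hpne : p ≠ p' := by
    rintro rfl
    exact hd p hp ⟨v, hv, hvp⟩ ⟨v', hv', hv'n, hv'p'⟩
  have hpp' : B p p' := by
    refine (h.tot hpne).resolve_left fun hr => ?_
    exact he p hp p' hp' ⟨v, hv, hvp⟩ ⟨v', hv', hv'n, hv'p'⟩ hr
  have hKne := cc_ne_of_not_conn (T := B) h.bs hnc hp
  obtain ⟨x, hxP, hxK⟩ := exists_not_mem_of_ne cc_sub hKne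
  have hp'K : p' ∈ cc B P p := cc_closed (cc_self hp) hp' hpp'
  have r1 : R p x := red_of_not_mem h (cc_self hp) hxP hxK
  have r2 : R p' x := red_of_not_mem h hp'K hxP hxK
  obtain ⟨v'', hv'', hb''⟩ := hV x hxP
  by_cases hvD : v'' ∈ D
  · exact he x hxP p' hp' ⟨v'', hvD, hb''⟩ ⟨v', hv', hv'n, hv'p'⟩ (h.rs r2)
  · exact he p hp x hxP ⟨v, hv, hvp⟩ ⟨v'', hv'', hvD, hb''⟩ r1

/-- there are no weak tight pairs -/
theorem no_weak : ∀ (n : ℕ) (R B : V → V → Prop), Cfg R B → ∀ U P z q, WT R B U P z q →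
    U.card + P.card = n → False := by
  intro n
  induction n using Nat.strong_induction_on with
  | _ n ih =>
    intro R B h U P z q wt hn
    obtain ⟨u, hu, ⟨a, ha, hua⟩, ⟨b, hb, hub⟩⟩ := exists_mixed h wt
    rcases mixed_imp h wt hu ha hua hb hub with hR | hB
    · exact step2 h.swap wt.swap hR
        (fun U' P' wt' hlt => ih (U'.card + P'.card) (by omega) B R h.swap U' P' q z wt' rfl)
    · exact step2 h wt hB
        (fun U' P' wt' hlt => ih (U'.card + P'.card) (by omega) R B h U' P' z q wt' rfl)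

end Pool.Agent.H159.BC
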